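import Mathlib

/-!
# Directed X-rays at infinitely many points do not determine a function (MP_113557_an, Q1)

In every dimension `n ≥ 2` we construct a continuous compactly supported `f`, not almost everywhere
zero, and an infinite set `P` of points with `D_p f = 0` for all `p ∈ P`.

Idea. All sources `p_k = (a_k, 0)` lie on a line and `f` is (rotationally symmetric about the line
and) supported in a half plane bounded by the line. In the projective coordinates
`(ξ, η) = (x / y, 1 / y)`, with `f (x, y) = y⁻² g (x / y, 1 / y)`, the rays from `(a, 0)` become the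
parallel lines of direction `(a, 1)`. If `g` has vanishing line integrals in finitely many
directions `(a_j, 1)`, then so does `g - μ * g` for a measure `μ`, and if `μ` is a probability
measure on the ray spanned by `(a', 1)`, then `g - μ * g` has vanishing line integrals in the
direction `(a', 1)`, too. Spreading `μ` over many logarithmic scales and taking `a'` very close to
the previous slope makes `η² |μ * g|` as small as we like, so that the iteration converges uniformly
in the original coordinates.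
-/

open MeasureTheory Set Filter Topology

namespace Pool.Agent.Results.MP_113557_an.InfiniteSources

/-- The directed X-ray (divergent beam transform) `D_p f (u) = ∫_0^∞ f (p + t u) dt`. -/
noncomputable def directedXRay {n : ℕ} (f : EuclideanSpace ℝ (Fin n) → ℝ)
    (p u : EuclideanSpace ℝ (Fin n)) : ℝ :=
  ∫ t in Set.Ioi (0 : ℝ), f (p + t • u)

section Weight

/-- un-normalised weight -/
noncomputable def w (T T' t : ℝ) : ℝ :=
  max 0 (min (T⁻¹ - (max t T)⁻¹) ((max t T)⁻¹ - T'⁻¹))

lemma w_cont {T T' : ℝ} (hT : 0 < T) : Continuous (w T T') := by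
  have h : Continuous fun t : ℝ => (max t T)⁻¹ :=
    (continuous_id.max continuous_const).inv₀ fun t => (lt_of_lt_of_le hT (le_max_right t T)).ne'
  unfold w
  exact continuous_const.max ((continuous_const.sub h).min (h.sub continuous_const))

lemma w_nonneg (T T' t : ℝ) : 0 ≤ w T T' t := le_max_left _ _

lemma w_supp {T T' t : ℝ} (hT : 0 < T) (hTT' : T ≤ T') (h : w T T' t ≠ 0) : T ≤ t ∧ t ≤ T' := by
  constructor
  · by_contra hlt
    push Not at hlt
    apply h
    unfold w
    rw [max_eq_right hlt.le]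
    simp
  · by_contra hlt
    push Not at hlt
    apply h
    unfold w
    rw [max_eq_left (hTT'.trans hlt.le)]
    apply max_eq_left
    refine (min_le_right _ _).trans ?_
    have : t⁻¹ ≤ T'⁻¹ := inv_anti₀ (hT.trans_le hTT') hlt.le
    linarith

lemma w_lip {T T' s t : ℝ} (hT : 0 < T) (hs : 0 < s) (hst : s ≤ t) :
    |w T T' s - w T T' t| ≤ s⁻¹ - t⁻¹ := by
  have ht : 0 < t := hs.trans_le hst
  have key : ∀ x y : ℝ, |max 0 (min (T⁻¹ - x) (x - T'⁻¹)) - max 0 (min (T⁻¹ - y) (y - T'⁻¹))| ≤
      |x - y| := by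
    intro x y
    refine (abs_max_sub_max_le_max _ _ _ _).trans ?_
    rw [sub_self, abs_zero]
    refine max_le (abs_nonneg _) ((abs_min_sub_min_le_max _ _ _ _).trans ?_)
    refine max_le ?_ ?_
    · rw [show T⁻¹ - x - (T⁻¹ - y) = -(x - y) by ring, abs_neg]
    · rw [show x - T'⁻¹ - (y - T'⁻¹) = x - y by ring]
  refine (key _ _).trans ?_
  have h1 : (max t T)⁻¹ ≤ (max s T)⁻¹ :=
    inv_anti₀ (lt_of_lt_of_le hT (le_max_right s T)) (max_le_max hst le_rfl)
  rw [abs_of_nonneg (by linarith)]
  rcases le_total t T with h | h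
  · rw [max_eq_right h, max_eq_right (hst.trans h)]
    have : t⁻¹ ≤ s⁻¹ := inv_anti₀ hs hst
    linarith
  · rw [max_eq_left h]
    have : (max s T)⁻¹ ≤ s⁻¹ := inv_anti₀ hs (le_max_left s T)
    linarith

lemma w_compact {T T' : ℝ} (hT : 0 < T) (hTT' : T ≤ T') : HasCompactSupport (w T T') :=
  HasCompactSupport.intro (isCompact_Icc (a := T) (b := T')) fun t ht => by
    by_contra h
    exact ht (w_supp hT hTT' h)

lemma w_integral {T T' : ℝ} (hT : 0 < T) (hTT' : 4 * T ≤ T') :
    2⁻¹ * Real.log (T' / (4 * T)) ≤ ∫ t, w T T' t := by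
  have hTT'' : T ≤ T' := by linarith
  have hint : Integrable (w T T') := (w_cont hT).integrable_of_hasCompactSupport (w_compact hT hTT'')
  have h1 : ∫ t in (2 * T)..(T' / 2), w T T' t ≤ ∫ t, w T T' t := by
    rw [intervalIntegral.integral_of_le (by linarith)]
    exact setIntegral_le_integral hint (Eventually.of_forall fun t => w_nonneg T T' t)
  refine le_trans ?_ h1
  have h2 : ∫ t in (2 * T)..(T' / 2), 2⁻¹ * t⁻¹ = 2⁻¹ * Real.log (T' / (4 * T)) := by
    rw [intervalIntegral.integral_const_mul, integral_inv_of_pos (by linarith) (by linarith)]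
    congr 2
    field_simp
    ring
  rw [← h2]
  refine intervalIntegral.integral_mono_on (by linarith) ?_ ?_ ?_
  · apply ContinuousOn.intervalIntegrable
    rw [Set.uIcc_of_le (by linarith)]
    refine continuousOn_const.mul (continuousOn_id.inv₀ fun t ht => ?_)
    have := ht.1
    simp only [id]
    linarith
  · exact (w_cont hT).intervalIntegrable _ _
  · intro t ht
    have ht1 := ht.1
    have ht2 := ht.2
    have htpos : 0 < t := by linarith
    unfold w
    rw [max_eq_left (by linarith : T ≤ t)]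
    refine le_trans ?_ (le_max_right _ _)
    refine le_min ?_ ?_
    · have : t⁻¹ ≤ (2 * T)⁻¹ := inv_anti₀ (by linarith) ht1
      have h3 : (2 * T)⁻¹ = 2⁻¹ * T⁻¹ := by rw [mul_inv]
      have h4 : 0 < t⁻¹ := inv_pos.mpr htpos
      linarith
    · have : (T' / 2)⁻¹ ≤ t⁻¹ := inv_anti₀ htpos ht2
      have h3 : (T' / 2)⁻¹ = 2 * T'⁻¹ := by
        rw [inv_div, div_eq_mul_inv]
      linarith

/-- Weights spread over logarithmically many scales: mass one, but very flat. -/
lemma exists_weight (T : ℝ) (hT : 0 < T) (κ : ℝ) (hκ : 0 < κ) :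
    ∃ (m : ℝ → ℝ) (T' : ℝ), T ≤ T' ∧ Continuous m ∧ (∀ t, 0 ≤ m t) ∧
      (∀ t, m t ≠ 0 → T ≤ t ∧ t ≤ T') ∧ ∫ t, m t = 1 ∧
      ∀ s t, 0 < s → s ≤ t → |m s - m t| ≤ κ * (s⁻¹ - t⁻¹) := by
  set T' := 4 * T * Real.exp (2 / κ) with hT'
  have h1 : (1 : ℝ) ≤ Real.exp (2 / κ) := Real.one_le_exp (by positivity)
  have h2 : 4 * T ≤ T' := by rw [hT']; nlinarith
  have hTT' : T ≤ T' := by linarith
  have h3 := w_integral hT h2
  have h4 : T' / (4 * T) = Real.exp (2 / κ) := by
    rw [hT']; field_simp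
  rw [h4, Real.log_exp] at h3
  set I := ∫ t, w T T' t with hI
  have h5 : κ⁻¹ ≤ I := by
    have : 2⁻¹ * (2 / κ) = κ⁻¹ := by field_simp
    linarith
  have hIpos : 0 < I := lt_of_lt_of_le (by positivity) h5
  have h6 : I⁻¹ ≤ κ := by
    have := inv_anti₀ (by positivity) h5
    simpa using this
  refine ⟨fun t => I⁻¹ * w T T' t, T', hTT', continuous_const.mul (w_cont hT), ?_, ?_, ?_, ?_⟩
  · intro t
    exact mul_nonneg (by positivity) (w_nonneg _ _ _)
  · intro t ht
    exact w_supp hT hTT' (right_ne_zero_of_mul ht)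
  · rw [integral_const_mul, ← hI, inv_mul_cancel₀ hIpos.ne']
  · intro s t hs hst
    rw [← mul_sub, abs_mul, abs_of_nonneg (by positivity : 0 ≤ I⁻¹)]
    have h7 := w_lip (T' := T') hT hs hst
    have h8 : 0 ≤ s⁻¹ - t⁻¹ := (abs_nonneg _).trans h7
    calc I⁻¹ * |w T T' s - w T T' t| ≤ I⁻¹ * (s⁻¹ - t⁻¹) := by gcongr
      _ ≤ κ * (s⁻¹ - t⁻¹) := by gcongr

end Weight

section Operator

/-- Integral of `g` along the line `{(c + a s, s)}`. -/
noncomputable def L (g : ℝ × ℝ → ℝ) (a c : ℝ) : ℝ := ∫ s, g (c + a * s, s)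

/-- Continuous, compactly supported, supported in the cone `η ≥ 1`, `|ξ| ≤ η`. -/
structure Good (g : ℝ × ℝ → ℝ) : Prop where
  cont : Continuous g
  comp : HasCompactSupport g
  cone : ∀ p, g p ≠ 0 → 1 ≤ p.2 ∧ |p.1| ≤ p.2

/-- Average of translates of `g` along the direction `(a, 1)` with weight `m`. -/
noncomputable def A (m : ℝ → ℝ) (a : ℝ) (g : ℝ × ℝ → ℝ) (p : ℝ × ℝ) : ℝ :=
  ∫ t, m t * g (p.1 - a * t, p.2 - t)

variable {g : ℝ × ℝ → ℝ}

lemma Good.bound (hg : Good g) : ∃ B M : ℝ, 0 ≤ B ∧ 1 ≤ M ∧ (∀ p, |g p| ≤ B) ∧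
    ∀ p, g p ≠ 0 → p.2 ≤ M := by
  obtain ⟨B, hB⟩ := hg.comp.exists_bound_of_continuous hg.cont
  have hbd : Bornology.IsBounded (tsupport g) := hg.comp.isCompact.isBounded
  obtain ⟨M, hM⟩ := hbd.exists_norm_le
  refine ⟨max B 0, max M 1, le_max_right _ _, le_max_right _ _, fun p => ?_, fun p hp => ?_⟩
  · exact (hB p).trans (le_max_left _ _)
  · have h1 := hM p (subset_tsupport g hp)
    have h2 : |p.2| ≤ ‖p‖ := by
      rw [Prod.norm_def]; exact le_max_right _ _
    exact ((le_abs_self _).trans (h2.trans h1)).trans (le_max_left _ _)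

lemma A_good {m : ℝ → ℝ} {T T' a : ℝ} (hg : Good g) (hT : 0 < T) (hm : Continuous m)
    (hms : ∀ t, m t ≠ 0 → T ≤ t ∧ t ≤ T') (ha : |a| ≤ 1) : Good (A m a g) := by
  obtain ⟨B, M, hB0, hM1, hB, hM⟩ := hg.bound
  have hmc : HasCompactSupport m := HasCompactSupport.intro (isCompact_Icc (a := T) (b := T'))
    fun t ht => by
      by_contra h
      exact ht (hms t h)
  have hmi : Integrable m := hm.integrable_of_hasCompactSupport hmc
  have hne : ∀ p, A m a g p ≠ 0 → ∃ t, m t ≠ 0 ∧ g (p.1 - a * t, p.2 - t) ≠ 0 := by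
    intro p hp
    by_contra hcon
    push Not at hcon
    apply hp
    unfold A
    rw [← integral_zero ℝ ℝ (μ := volume)]
    congr 1
    funext t
    by_cases h : m t = 0
    · rw [h, zero_mul]
    · rw [hcon t h, mul_zero]
  have hcone : ∀ p, A m a g p ≠ 0 → 1 ≤ p.2 ∧ |p.1| ≤ p.2 ∧ p.2 ≤ M + T' := by
    intro p hp
    obtain ⟨t, ht1, ht2⟩ := hne p hp
    have h1 := hms t ht1
    have h2 := hg.cone _ ht2
    have h3 := hM _ ht2
    simp only at h2 h3
    have ht0 : 0 < t := hT.trans_le h1.1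
    have h4 : |a * t| ≤ t := by
      rw [abs_mul, abs_of_pos ht0]
      nlinarith
    have h5 : |p.1| ≤ |p.1 - a * t| + |a * t| := by
      have := abs_add_le (p.1 - a * t) (a * t)
      simpa using this
    refine ⟨by linarith [h2.1], by linarith [h2.2], by linarith [h1.2]⟩
  refine ⟨?_, ?_, fun p hp => ⟨(hcone p hp).1, (hcone p hp).2.1⟩⟩
  · unfold A
    refine continuous_of_dominated (bound := fun t => |m t| * B) ?_ ?_ ?_ ?_
    · intro p
      exact (hm.mul (hg.cont.comp (by fun_prop))).aestronglyMeasurable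
    · intro p
      refine Eventually.of_forall fun t => ?_
      rw [norm_mul, Real.norm_eq_abs, Real.norm_eq_abs]
      gcongr
      exact hB _
    · exact hmi.abs.mul_const B
    · refine Eventually.of_forall fun t => ?_
      exact continuous_const.mul (hg.cont.comp (by fun_prop))
  · refine HasCompactSupport.intro ((isCompact_Icc (a := -(M + T')) (b := M + T')).prod
      (isCompact_Icc (a := (0 : ℝ)) (b := M + T'))) fun p hp => ?_
    by_contra h
    apply hp
    obtain ⟨h1, h2, h3⟩ := hcone p h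
    have h4 := abs_le.mp h2
    exact ⟨⟨by linarith, by linarith⟩, ⟨by linarith, h3⟩⟩

lemma L_A {m : ℝ → ℝ} {T T' a : ℝ} (hg : Good g) (hm : Continuous m)
    (hms : ∀ t, m t ≠ 0 → T ≤ t ∧ t ≤ T') (b c : ℝ) :
    L (A m a g) b c = ∫ t, m t * L g b (c + (b - a) * t) := by
  obtain ⟨B, M, hB0, hM1, hB, hM⟩ := hg.bound
  unfold L A
  simp only
  rw [integral_integral_swap_of_hasCompactSupport]
  · congr 1
    funext t
    rw [integral_const_mul]
    congr 1
    rw [← integral_add_right_eq_self (fun s => g (c + b * s - a * t, s - t)) t]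
    congr 1
    funext s
    congr 1
    ext
    · simp
      ring
    · simp
  · have : (Function.uncurry fun (s t : ℝ) => m t * g (c + b * s - a * t, s - t)) =
        fun q : ℝ × ℝ => m q.2 * g (c + b * q.1 - a * q.2, q.1 - q.2) := rfl
    rw [this]
    exact (hm.comp continuous_snd).mul (hg.cont.comp (by fun_prop))
  · refine HasCompactSupport.intro ((isCompact_Icc (a := T + 1) (b := M + T')).prod
      (isCompact_Icc (a := T) (b := T'))) fun q hq => ?_
    by_contra h
    apply hq
    have h1 := hms q.2 (left_ne_zero_of_mul h)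
    have h2 := hg.cone _ (right_ne_zero_of_mul h)
    have h3 := hM _ (right_ne_zero_of_mul h)
    simp only at h2 h3
    exact ⟨⟨by linarith [h1.1, h2.1], by linarith [h1.2]⟩, h1⟩

lemma Good.sub {h : ℝ × ℝ → ℝ} (hg : Good g) (hh : Good h) : Good fun p => g p - h p := by
  have hne : ∀ p, g p - h p ≠ 0 → g p ≠ 0 ∨ h p ≠ 0 := by
    intro p hp
    by_contra hcon
    push Not at hcon
    apply hp
    rw [hcon.1, hcon.2, sub_zero]
  refine ⟨hg.cont.sub hh.cont, ?_, fun p hp => ?_⟩
  · refine HasCompactSupport.intro (hg.comp.isCompact.union hh.comp.isCompact) fun p hp => ?_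
    by_contra hcon
    rcases hne p hcon with h1 | h1
    · exact hp (Or.inl (subset_tsupport g h1))
    · exact hp (Or.inr (subset_tsupport h h1))
  · rcases hne p hp with h1 | h1
    · exact hg.cone p h1
    · exact hh.cone p h1

lemma Good.integrable_line (hg : Good g) (a c : ℝ) :
    Integrable fun s : ℝ => g (c + a * s, s) := by
  obtain ⟨B, M, hB0, hM1, hB, hM⟩ := hg.bound
  refine (hg.cont.comp (by fun_prop)).integrable_of_hasCompactSupport ?_
  refine HasCompactSupport.intro (isCompact_Icc (a := 1) (b := M)) fun s hs => ?_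
  by_contra h
  exact hs ⟨(hg.cone _ h).1, hM _ h⟩

/-- Averages in a direction `(a, 1)` along which all line integrals vanish are tiny. -/
lemma A_small {m : ℝ → ℝ} {B M T' a κ : ℝ} (hg : Good g)
    (hM1 : 1 ≤ M) (hB : ∀ p, |g p| ≤ B) (hM : ∀ p, g p ≠ 0 → p.2 ≤ M)
    (hm : Continuous m)
    (hms : ∀ t, m t ≠ 0 → 2 * M ≤ t ∧ t ≤ T') (hκ : 0 ≤ κ)
    (hml : ∀ s t, 0 < s → s ≤ t → |m s - m t| ≤ κ * (s⁻¹ - t⁻¹))
    (hL : ∀ c, L g a c = 0) (p : ℝ × ℝ) :
    |A m a g p| * p.2 ^ 2 ≤ 2 * M ^ 2 * κ * B := by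
  have hB0 : 0 ≤ B := (abs_nonneg _).trans (hB 0)
  have hR : 0 ≤ 2 * M ^ 2 * κ * B := by positivity
  rcases lt_or_ge p.2 (2 * M) with hp | hp
  · have : A m a g p = 0 := by
      unfold A
      rw [← integral_zero ℝ ℝ (μ := volume)]
      congr 1
      funext t
      by_contra hcon
      have h1 := hms t (left_ne_zero_of_mul hcon)
      have h2 := (hg.cone _ (right_ne_zero_of_mul hcon)).1
      simp only at h2
      linarith
    rw [this]
    simpa using hR
  set η := p.2 with hη
  have hη0 : 0 < η := by linarith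
  -- subtract the constant `m η`
  have h0 : ∫ t, g (p.1 - a * t, η - t) = 0 := by
    rw [← hL (p.1 - a * η)]
    unfold L
    rw [← integral_sub_left_eq_self (fun s => g (p.1 - a * η + a * s, s)) volume η]
    congr 1
    funext t
    congr 1
    ext
    · simp; ring
    · simp
  have hint : Integrable fun t : ℝ => g (p.1 - a * t, η - t) := by
    have h1 := (hg.integrable_line a (p.1 - a * η)).comp_sub_left η
    refine h1.congr (Eventually.of_forall fun t => ?_)
    simp only
    congr 1
    ext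
    · simp; ring
    · simp
  have hmc : HasCompactSupport m := HasCompactSupport.intro (isCompact_Icc (a := 2 * M) (b := T'))
    fun t ht => by
      by_contra h
      exact ht (hms t h)
  have hint2 : Integrable fun t : ℝ => m t * g (p.1 - a * t, η - t) := by
    refine (hm.mul (hg.cont.comp (by fun_prop))).integrable_of_hasCompactSupport ?_
    exact hmc.mul_right
  have h1 : A m a g p = ∫ t, (m t - m η) * g (p.1 - a * t, η - t) := by
    have : ∫ t, (m t - m η) * g (p.1 - a * t, η - t) =
        (∫ t, m t * g (p.1 - a * t, η - t)) - ∫ t, m η * g (p.1 - a * t, η - t) := by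
      rw [← integral_sub hint2 (hint.const_mul _)]
      congr 1
      funext t
      ring
    rw [this, integral_const_mul, h0, mul_zero, sub_zero]
    rfl
  have h2 : ∫ t, (m t - m η) * g (p.1 - a * t, η - t) =
      ∫ t in Icc (η - M) η, (m t - m η) * g (p.1 - a * t, η - t) := by
    symm
    apply setIntegral_eq_integral_of_forall_compl_eq_zero
    intro t ht
    by_contra hcon
    have h3 := (hg.cone _ (right_ne_zero_of_mul hcon)).1
    have h4 := hM _ (right_ne_zero_of_mul hcon)
    simp only at h3 h4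
    exact ht ⟨by linarith, by linarith⟩
  have h3 : ‖∫ t in Icc (η - M) η, (m t - m η) * g (p.1 - a * t, η - t)‖ ≤
      (κ * (2 * M / η ^ 2) * B) * (volume.real (Icc (η - M) η)) := by
    apply norm_setIntegral_le_of_norm_le_const
    · simp
    · intro t ht
      have ht1 := ht.1
      have ht2 := ht.2
      have ht0 : 0 < t := by linarith
      rw [norm_mul, Real.norm_eq_abs, Real.norm_eq_abs]
      have h5 := hml t η ht0 ht2
      have h6 : t⁻¹ - η⁻¹ ≤ 2 * M / η ^ 2 := by
        rw [inv_sub_inv ht0.ne' hη0.ne', div_le_div_iff₀ (by positivity) (by positivity)]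
        have h7 : η ≤ 2 * t := by linarith
        have h8 : η - t ≤ M := by linarith
        calc (η - t) * η ^ 2 ≤ M * η ^ 2 := by gcongr
          _ = M * η * η := by ring
          _ ≤ M * (2 * t) * η := by gcongr
          _ = 2 * M * (t * η) := by ring
      have h9 : 0 ≤ κ * (t⁻¹ - η⁻¹) := (abs_nonneg _).trans h5
      calc |m t - m η| * |g (p.1 - a * t, η - t)| ≤ (κ * (t⁻¹ - η⁻¹)) * B := by
            gcongr
            exact hB _
        _ ≤ κ * (2 * M / η ^ 2) * B := by gcongr
  have h4 : volume.real (Icc (η - M) η) = M := by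
    rw [Real.volume_real_Icc_of_le (by linarith)]
    ring
  rw [h4] at h3
  rw [h1, h2, ← Real.norm_eq_abs]
  calc ‖∫ t in Icc (η - M) η, (m t - m η) * g (p.1 - a * t, η - t)‖ * η ^ 2
      ≤ (κ * (2 * M / η ^ 2) * B * M) * η ^ 2 := by gcongr
    _ = 2 * M ^ 2 * κ * B := by
      field_simp

/-- One step of the construction. -/
lemma step (hg : Good g) (a : ℝ) (ha : |a| ≤ 1) (hL : ∀ c, L g a c = 0) (ε : ℝ) (hε : 0 < ε) :
    ∃ δ > 0, ∀ a', |a'| ≤ 1 → |a' - a| < δ → ∃ g', Good g' ∧ (∀ c, L g' a' c = 0) ∧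
      (∀ b, (∀ c, L g b c = 0) → ∀ c, L g' b c = 0) ∧ ∀ p, |g' p - g p| * p.2 ^ 2 ≤ ε := by
  obtain ⟨B, M, hB0, hM1, hB, hM⟩ := hg.bound
  obtain ⟨m, T', hTT', hm, hm0, hms, hmi, hml⟩ :=
    exists_weight (2 * M) (by linarith) (ε / (4 * M ^ 2 * (B + 1))) (by positivity)
  set κ := ε / (4 * M ^ 2 * (B + 1)) with hκ
  have hκ0 : 0 ≤ κ := by positivity
  have hκB : 2 * M ^ 2 * κ * B ≤ ε / 2 := by
    rw [hκ]
    have h1 : 2 * M ^ 2 * (ε / (4 * M ^ 2 * (B + 1))) * B = (ε / 2) * (B / (B + 1)) := by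
      field_simp
      ring
    rw [h1]
    have h2 : B / (B + 1) ≤ 1 := by
      rw [div_le_one (by positivity)]
      linarith
    nlinarith
  set R := M + T' with hR
  have hR1 : 1 ≤ R := by linarith
  have huc := hg.comp.uniformContinuous_of_continuous hg.cont
  rw [Metric.uniformContinuous_iff] at huc
  obtain ⟨δ₁, hδ₁, huc⟩ := huc (ε / (2 * R ^ 2)) (by positivity)
  have hT'0 : 0 < T' := by linarith
  have hmc : HasCompactSupport m := HasCompactSupport.intro (isCompact_Icc (a := 2 * M) (b := T'))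
    fun t ht => by
      by_contra h
      exact ht (hms t h)
  have hmint : Integrable m := hm.integrable_of_hasCompactSupport hmc
  refine ⟨δ₁ / T', by positivity, fun a' ha' haa' => ?_⟩
  have hA' : Good (A m a' g) := A_good hg (by linarith) hm hms ha'
  have hA : Good (A m a g) := A_good hg (by linarith) hm hms ha
  refine ⟨fun p => g p - A m a' g p, hg.sub hA', ?_, ?_, ?_⟩
  · intro c
    have h1 : L (fun p => g p - A m a' g p) a' c = L g a' c - L (A m a' g) a' c := by
      unfold L
      exact integral_sub (hg.integrable_line _ _) (hA'.integrable_line _ _)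
    rw [h1, L_A hg hm hms]
    simp only [sub_self, zero_mul, add_zero]
    rw [integral_mul_const, hmi, one_mul, sub_self]
  · intro b hb c
    have h1 : L (fun p => g p - A m a' g p) b c = L g b c - L (A m a' g) b c := by
      unfold L
      exact integral_sub (hg.integrable_line _ _) (hA'.integrable_line _ _)
    rw [h1, L_A hg hm hms, hb]
    simp [hb]
  · intro p
    have h1 : |g p - A m a' g p - g p| = |A m a' g p| := by
      rw [show g p - A m a' g p - g p = -(A m a' g p) by ring, abs_neg]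
    rw [h1]
    have h2 := A_small hg hM1 hB hM hm hms hκ0 hml hL p
    have h3 : |A m a' g p - A m a g p| ≤ ε / (2 * R ^ 2) := by
      have hi : ∀ b : ℝ, Integrable fun t => m t * g (p.1 - b * t, p.2 - t) := by
        intro b
        refine (hm.mul (hg.cont.comp (by fun_prop))).integrable_of_hasCompactSupport ?_
        exact hmc.mul_right
      unfold A
      rw [← integral_sub (hi a') (hi a), ← Real.norm_eq_abs]
      refine (norm_integral_le_of_norm_le (hmint.mul_const (ε / (2 * R ^ 2)))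
        (Eventually.of_forall fun t => ?_)).trans ?_
      · rw [← mul_sub, norm_mul, Real.norm_eq_abs, Real.norm_eq_abs, abs_of_nonneg (hm0 t)]
        by_cases hmt : m t = 0
        · rw [hmt]; simp
        · gcongr
          · exact hm0 t
          · have h4 := hms t hmt
            have ht0 : 0 < t := by linarith [h4.1]
            have h5 : dist (p.1 - a' * t, p.2 - t) (p.1 - a * t, p.2 - t) < δ₁ := by
              rw [Prod.dist_eq]
              simp only [dist_self, max_lt_iff]
              refine ⟨?_, hδ₁⟩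
              rw [Real.dist_eq, show p.1 - a' * t - (p.1 - a * t) = -((a' - a) * t) by ring,
                abs_neg, abs_mul, abs_of_pos ht0]
              calc |a' - a| * t ≤ |a' - a| * T' := by gcongr; exact h4.2
                _ < δ₁ / T' * T' := by gcongr
                _ = δ₁ := by field_simp
            have h6 := huc h5
            rw [Real.dist_eq] at h6
            exact h6.le
      · rw [integral_mul_const, hmi, one_mul]
    rcases lt_or_ge p.2 1 with hp1 | hp1
    · have h4 : A m a' g p = 0 := by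
        by_contra hcon
        have := (hA'.cone p hcon).1
        linarith
      rw [h4]
      simpa using hε.le
    rcases lt_or_ge R p.2 with hp2 | hp2
    · have h4 : A m a' g p = 0 := by
        unfold A
        rw [← integral_zero ℝ ℝ (μ := volume)]
        congr 1
        funext t
        by_contra hcon
        have h5 := hms t (left_ne_zero_of_mul hcon)
        have h6 := hM _ (right_ne_zero_of_mul hcon)
        simp only at h6
        linarith [h5.2]
      rw [h4]
      simpa using hε.le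
    have h4 : |A m a' g p| ≤ |A m a' g p - A m a g p| + |A m a g p| := by
      have := abs_add_le (A m a' g p - A m a g p) (A m a g p)
      simpa using this
    calc |A m a' g p| * p.2 ^ 2 ≤ (|A m a' g p - A m a g p| + |A m a g p|) * p.2 ^ 2 := by gcongr
      _ = |A m a' g p - A m a g p| * p.2 ^ 2 + |A m a g p| * p.2 ^ 2 := by ring
      _ ≤ ε / (2 * R ^ 2) * R ^ 2 + ε / 2 := by
        gcongr
        exact h2.trans hκB
      _ = ε := by
        field_simp
        ring

end Operator

section Transfer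

/-- The function of `(x, y)` obtained from `g` by the projective change of variables
`(ξ, η) = (x / y, 1 / y)`. -/
noncomputable def Phi (g : ℝ × ℝ → ℝ) (q : ℝ × ℝ) : ℝ :=
  if 0 < q.2 then (q.2⁻¹) ^ 2 * g (q.1 * q.2⁻¹, q.2⁻¹) else 0

variable {g : ℝ × ℝ → ℝ}

lemma Phi_cont (hg : Good g) : Continuous (Phi g) := by
  obtain ⟨B, M, hB0, hM1, hB, hM⟩ := hg.bound
  set δ := (2 * M)⁻¹ with hδ
  have hδ0 : 0 < δ := by positivity
  have hzero : ∀ x η : ℝ, M < η → g (x, η) = 0 := by
    intro x η h
    by_contra hcon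
    have := hM _ hcon
    simp only at this
    linarith
  have h1 : Phi g = fun q : ℝ × ℝ => ((max q.2 δ)⁻¹) ^ 2 * g (q.1 * (max q.2 δ)⁻¹, (max q.2 δ)⁻¹) := by
    funext q
    unfold Phi
    rcases le_or_gt δ q.2 with h | h
    · rw [if_pos (hδ0.trans_le h), max_eq_left h]
    · have h2 : δ⁻¹ = 2 * M := by rw [hδ, inv_inv]
      rw [max_eq_right h.le, h2, hzero _ (2 * M) (by linarith), mul_zero]
      split_ifs with h3
      · have h4 : 2 * M < q.2⁻¹ := by
          rw [← h2]
          exact (inv_lt_inv₀ hδ0 h3).mpr h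
        rw [hzero _ _ (by linarith), mul_zero]
      · rfl
  have h3 : Continuous fun q : ℝ × ℝ => (max q.2 δ)⁻¹ :=
    (continuous_snd.max continuous_const).inv₀
      fun q => (lt_of_lt_of_le hδ0 (le_max_right q.2 δ)).ne'
  rw [h1]
  exact (h3.pow 2).mul (hg.cont.comp ((continuous_fst.mul h3).prodMk h3))

lemma Phi_sub {g' : ℝ × ℝ → ℝ} {ε : ℝ} (hε : 0 ≤ ε) (h : ∀ p, |g' p - g p| * p.2 ^ 2 ≤ ε)
    (q : ℝ × ℝ) : |Phi g' q - Phi g q| ≤ ε := by
  unfold Phi
  split_ifs with hq
  · have := h (q.1 * q.2⁻¹, q.2⁻¹)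
    rw [← mul_sub, abs_mul, abs_of_nonneg (by positivity : (0 : ℝ) ≤ q.2⁻¹ ^ 2), mul_comm]
    exact this
  · simpa using hε

lemma Phi_supp (hg : Good g) {q : ℝ × ℝ} (h : Phi g q ≠ 0) : 0 < q.2 ∧ q.2 ≤ 1 ∧ |q.1| ≤ 1 := by
  unfold Phi at h
  split_ifs at h with hq
  · have h1 := hg.cone _ (right_ne_zero_of_mul h)
    simp only at h1
    obtain ⟨h2, h3⟩ := h1
    refine ⟨hq, ?_, ?_⟩
    · exact (one_le_inv₀ hq).mp h2
    · rw [abs_mul, abs_of_pos (inv_pos.mpr hq)] at h3
      have : 0 < q.2⁻¹ := inv_pos.mpr hq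
      nlinarith
  · exact absurd rfl h

lemma Phi_ray (hg : Good g) (a : ℝ) (hL : ∀ c, L g a c = 0) (c d : ℝ) (hd : 0 ≤ d) :
    ∫ t in Ioi (0 : ℝ), Phi g (a + t * c, t * d) = 0 := by
  rcases hd.eq_or_lt with hd | hd
  · rw [← hd]
    simp [Phi]
  let h : ℝ → ℝ := fun s => (d⁻¹) ^ 2 * g (a * (s * d⁻¹) + c * d⁻¹, s * d⁻¹)
  have h1 : ∫ t in Ioi (0 : ℝ), Phi g (a + t * c, t * d) =
      ∫ t in Ioi (0 : ℝ), (|(-1 : ℝ)| * t ^ ((-1 : ℝ) - 1)) • h (t ^ (-1 : ℝ)) := by
    refine setIntegral_congr_fun measurableSet_Ioi fun t ht => ?_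
    have ht0 : (0 : ℝ) < t := ht
    have h2 : t ^ ((-1 : ℝ) - 1) = (t⁻¹) ^ 2 := by
      rw [show ((-1 : ℝ) - 1) = -((2 : ℕ) : ℝ) by norm_num, Real.rpow_neg ht0.le,
        Real.rpow_natCast, inv_pow]
    have h3 : t ^ (-1 : ℝ) = t⁻¹ := by
      rw [Real.rpow_neg ht0.le, Real.rpow_one]
    simp only [Phi, h, h2, h3, smul_eq_mul, abs_neg, abs_one, one_mul]
    rw [if_pos (by positivity)]
    have h4 : (a + t * c) * (t * d)⁻¹ = a * (t⁻¹ * d⁻¹) + c * d⁻¹ := by
      field_simp
    have h5 : (t * d)⁻¹ = t⁻¹ * d⁻¹ := by rw [mul_inv]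
    rw [h4, h5]
    ring
  rw [h1, integral_comp_rpow_Ioi h (by norm_num)]
  have h2 : ∫ s in Ioi (0 : ℝ), h s = (d⁻¹) ^ 2 * ∫ s in Ioi (0 : ℝ),
      g (a * (s * d⁻¹) + c * d⁻¹, s * d⁻¹) := by
    rw [← integral_const_mul]
  have h4 := integral_comp_mul_right_Ioi (fun s => g (a * s + c * d⁻¹, s)) 0 (inv_pos.mpr hd)
  simp only [zero_mul] at h4
  rw [h2, h4]
  have h3 : ∫ s in Ioi (0 : ℝ), g (a * s + c * d⁻¹, s) = L g a (c * d⁻¹) := by
    unfold L
    rw [setIntegral_eq_integral_of_forall_compl_eq_zero]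
    · congr 1
      funext s
      rw [add_comm]
    · intro s hs
      by_contra hcon
      have := (hg.cone _ hcon).1
      simp only at this
      exact hs (by simp only [mem_Ioi]; linarith)
  rw [h3, hL]
  simp

end Transfer

section Sequence

/-- starting function -/
noncomputable def g0 (p : ℝ × ℝ) : ℝ :=
  max 0 (1 - |p.1|) * (max 0 (1 - |p.2 - 2|) * (p.2 - 2))

lemma g0_good : Good g0 := by
  have hsupp : ∀ p, g0 p ≠ 0 → |p.1| ≤ 1 ∧ 1 ≤ p.2 ∧ p.2 ≤ 3 := by
    intro p hp
    unfold g0 at hp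
    have h1 := left_ne_zero_of_mul hp
    have h2 := left_ne_zero_of_mul (right_ne_zero_of_mul hp)
    have h3 : |p.1| ≤ 1 := by
      by_contra hcon
      exact h1 (max_eq_left (by linarith))
    have h4 : |p.2 - 2| ≤ 1 := by
      by_contra hcon
      exact h2 (max_eq_left (by linarith))
    have h5 := abs_le.mp h4
    exact ⟨h3, by linarith, by linarith⟩
  refine ⟨?_, ?_, fun p hp => ?_⟩
  · unfold g0
    fun_prop
  · refine HasCompactSupport.intro ((isCompact_Icc (a := (-1 : ℝ)) (b := 1)).prod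
      (isCompact_Icc (a := (1 : ℝ)) (b := 3))) fun p hp => ?_
    by_contra h
    obtain ⟨h1, h2, h3⟩ := hsupp p h
    exact hp ⟨abs_le.mp h1, ⟨h2, h3⟩⟩
  · obtain ⟨h1, h2, h3⟩ := hsupp p hp
    exact ⟨h2, h1.trans h2⟩

lemma g0_L (c : ℝ) : L g0 0 c = 0 := by
  unfold L g0
  simp only [zero_mul, add_zero]
  rw [integral_const_mul]
  set β : ℝ → ℝ := fun s => max 0 (1 - |s - 2|) * (s - 2) with hβ
  have h1 : ∫ s, β (4 - s) = ∫ s, β s := integral_sub_left_eq_self β volume 4
  have h2 : ∫ s, β (4 - s) = -∫ s, β s := by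
    rw [← integral_neg]
    congr 1
    funext s
    simp only [hβ]
    rw [show 4 - s - 2 = -(s - 2) by ring, abs_neg]
    ring
  have h3 : ∫ s, β s = 0 := by linarith
  rw [h3, mul_zero]

/-- There are an increasing sequence of slopes `a_k` and functions `g_k` such that all line
integrals of `g_k` in the directions `(a_j, 1)`, `j ≤ k`, vanish and consecutive functions are
very close in the weighted supremum norm. -/
lemma exists_seq : ∃ (G : ℕ → ℝ × ℝ → ℝ) (a : ℕ → ℝ), StrictMono a ∧ (∀ k, Good (G k)) ∧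
    G 0 = g0 ∧ (∀ j k, j ≤ k → ∀ c, L (G k) (a j) c = 0) ∧
    ∀ k p, |G (k + 1) p - G k p| * p.2 ^ 2 ≤ (1 / 2) ^ (k + 1) := by
  let St := {s : (ℝ × ℝ → ℝ) × ℝ // Good s.1 ∧ 0 ≤ s.2 ∧ s.2 < 1 ∧ ∀ c, L s.1 s.2 c = 0}
  have hstep : ∀ (k : ℕ) (s : St), ∃ s' : St, s.1.2 < s'.1.2 ∧
      (∀ b, (∀ c, L s.1.1 b c = 0) → ∀ c, L s'.1.1 b c = 0) ∧
      ∀ p, |s'.1.1 p - s.1.1 p| * p.2 ^ 2 ≤ (1 / 2) ^ (k + 1) := by
    rintro k ⟨⟨g, a⟩, hg, ha0, ha1, hL⟩
    simp only at hg ha0 ha1 hL
    obtain ⟨δ, hδ, H⟩ := step hg a (abs_le.mpr ⟨by linarith, ha1.le⟩) hL ((1 / 2) ^ (k + 1))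
      (by positivity)
    set a' := a + min (δ / 2) ((1 - a) / 2) with ha'
    have h1 : 0 < min (δ / 2) ((1 - a) / 2) := lt_min (by linarith) (by linarith)
    have h2 : min (δ / 2) ((1 - a) / 2) ≤ δ / 2 := min_le_left _ _
    have h3 : min (δ / 2) ((1 - a) / 2) ≤ (1 - a) / 2 := min_le_right _ _
    obtain ⟨g', hg', hL', hb', hp'⟩ := H a' (abs_le.mpr ⟨by linarith, by linarith⟩)
      (by rw [ha', add_sub_cancel_left, abs_of_pos h1]; linarith)
    exact ⟨⟨(g', a'), hg', by simp only; linarith, by simp only; linarith, hL'⟩,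
      by simp only; linarith, hb', hp'⟩
  choose next hnext using hstep
  let s : ℕ → St := fun k => Nat.rec (motive := fun _ => St)
    ⟨(g0, 0), g0_good, le_rfl, zero_lt_one, g0_L⟩ (fun k s => next k s) k
  have hs : ∀ k, s (k + 1) = next k (s k) := fun k => rfl
  refine ⟨fun k => (s k).1.1, fun k => (s k).1.2, ?_, ?_, rfl, ?_, ?_⟩
  · refine strictMono_nat_of_lt_succ fun k => ?_
    simp only [hs]
    exact (hnext k (s k)).1
  · intro k
    exact (s k).2.1
  · intro j k hjk
    induction k, hjk using Nat.le_induction with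
    | base => exact (s j).2.2.2.2
    | succ k hk ih =>
      simp only [hs]
      exact (hnext k (s k)).2.1 _ ih
  · intro k p
    simp only [hs]
    exact (hnext k (s k)).2.2 p

/-- The planar function: continuous, bounded support in `0 < y ≤ 1`, `|x| ≤ 1`, and all integrals
along rays starting at the points `(a_j, 0)` vanish. -/
lemma exists_planar : ∃ (F : ℝ × ℝ → ℝ) (a : ℕ → ℝ), StrictMono a ∧ Continuous F ∧
    (∀ q, F q ≠ 0 → 0 < q.2 ∧ q.2 ≤ 1 ∧ |q.1| ≤ 1) ∧ F (0, 2 / 5) ≠ 0 ∧
    ∀ j c d, 0 ≤ d → ∫ t in Ioi (0 : ℝ), F (a j + t * c, t * d) = 0 := by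
  obtain ⟨G, a, ha, hG, hG0, hL, hd⟩ := exists_seq
  set φ : ℕ → ℝ × ℝ → ℝ := fun k => Phi (G k) with hφ
  have hφc : ∀ k, Continuous (φ k) := fun k => Phi_cont (hG k)
  have hφd : ∀ k q, |φ (k + 1) q - φ k q| ≤ (1 / 2 : ℝ) ^ (k + 1) :=
    fun k q => Phi_sub (by positivity) (hd k) q
  have hsum : HasSum (fun k : ℕ => (1 / 2 : ℝ) ^ (k + 1)) 1 := by
    have h1 := (hasSum_geometric_of_lt_one (by norm_num : (0 : ℝ) ≤ 1 / 2) (by norm_num)).mul_left
      (1 / 2 : ℝ)
    have h2 : (1 / 2 : ℝ) * (1 - 1 / 2)⁻¹ = 1 := by norm_num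
    rw [h2] at h1
    simpa only [pow_succ'] using h1
  have hsummable : ∀ q, Summable fun k => φ (k + 1) q - φ k q := fun q =>
    Summable.of_norm_bounded hsum.summable fun k => by
      rw [Real.norm_eq_abs]; exact hφd k q
  set F : ℝ × ℝ → ℝ := fun q => φ 0 q + ∑' k, (φ (k + 1) q - φ k q) with hF
  have hFc : Continuous F := by
    refine (hφc 0).add (continuous_tsum (fun k => (hφc (k + 1)).sub (hφc k)) hsum.summable
      fun k q => ?_)
    rw [Real.norm_eq_abs]; exact hφd k q
  have hlim : ∀ q, Tendsto (fun k => φ k q) atTop (𝓝 (F q)) := by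
    intro q
    have h1 := ((hsummable q).hasSum.tendsto_sum_nat).const_add (φ 0 q)
    refine h1.congr fun k => ?_
    rw [Finset.sum_range_sub (fun k => φ k q)]
    ring
  have hclose : ∀ k q, |φ k q - φ 0 q| ≤ 1 := by
    intro k q
    rw [← Finset.sum_range_sub (fun k => φ k q)]
    calc |∑ i ∈ Finset.range k, (φ (i + 1) q - φ i q)|
        ≤ ∑ i ∈ Finset.range k, |φ (i + 1) q - φ i q| := Finset.abs_sum_le_sum_abs _ _
      _ ≤ ∑ i ∈ Finset.range k, (1 / 2 : ℝ) ^ (i + 1) := Finset.sum_le_sum fun i _ => hφd i q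
      _ ≤ 1 := sum_le_hasSum _ (fun i _ => by positivity) hsum
  have hsupp : ∀ q, F q ≠ 0 → 0 < q.2 ∧ q.2 ≤ 1 ∧ |q.1| ≤ 1 := by
    intro q hq
    by_contra hcon
    apply hq
    have h1 : ∀ k, φ k q = 0 := fun k => by
      by_contra h2
      exact hcon (Phi_supp (hG k) h2)
    have h2 := hlim q
    simp only [h1] at h2
    exact (tendsto_nhds_unique h2 tendsto_const_nhds)
  obtain ⟨C, hC⟩ : ∃ C, ∀ q, |φ 0 q| ≤ C := by
    have h1 : HasCompactSupport (φ 0) := by
      refine HasCompactSupport.intro ((isCompact_Icc (a := (-1 : ℝ)) (b := 1)).prod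
        (isCompact_Icc (a := (0 : ℝ)) (b := 1))) fun q hq => ?_
      by_contra h
      obtain ⟨h1, h2, h3⟩ := Phi_supp (hG 0) h
      exact hq ⟨abs_le.mp h3, ⟨h1.le, h2⟩⟩
    exact h1.exists_bound_of_continuous (hφc 0)
  refine ⟨F, a, ha, hFc, hsupp, ?_, ?_⟩
  · intro h0
    have h1 : |F (0, 2 / 5) - φ 0 (0, 2 / 5)| ≤ 1 := by
      have h2 := ((hlim (0, 2 / 5)).sub_const (φ 0 (0, 2 / 5))).abs
      exact le_of_tendsto h2 (Eventually.of_forall fun k => hclose k _)
    have h3 : φ 0 (0, 2 / 5) = 25 / 16 := by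
      simp only [hφ, hG0, Phi, g0]
      norm_num
    rw [h0, h3] at h1
    norm_num at h1
  · intro j c d hd0
    rcases hd0.eq_or_lt with hd1 | hd1
    · have h1 : ∀ t : ℝ, F (a j + t * c, t * d) = 0 := by
        intro t
        by_contra hcon
        have := (hsupp _ hcon).1
        rw [← hd1] at this
        simp at this
      simp [h1]
    have h1 : Tendsto (fun k => ∫ t in Ioi (0 : ℝ), φ k (a j + t * c, t * d)) atTop
        (𝓝 (∫ t in Ioi (0 : ℝ), F (a j + t * c, t * d))) := by
      refine tendsto_integral_of_dominated_convergence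
        (fun t => (Icc (0 : ℝ) d⁻¹).indicator (fun _ => C + 1) t) ?_ ?_ ?_ ?_
      · intro k
        exact ((hφc k).comp (by fun_prop)).aestronglyMeasurable
      · apply Integrable.mono_measure _ Measure.restrict_le_self
        rw [integrable_indicator_iff measurableSet_Icc]
        exact integrableOn_const (by simp) (by simp)
      · intro k
        refine Eventually.of_forall fun t => ?_
        rw [Real.norm_eq_abs]
        by_cases hz : φ k (a j + t * c, t * d) = 0
        · rw [hz, abs_zero]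
          refine indicator_nonneg (fun _ _ => ?_) _
          linarith [(abs_nonneg _).trans (hC 0)]
        · have h2 := Phi_supp (hG k) hz
          simp only at h2
          have ht0 : 0 ≤ t := by
            by_contra hneg
            nlinarith [h2.1]
          have ht1 : t ≤ d⁻¹ := by
            calc t = t * d * d⁻¹ := by field_simp
              _ ≤ 1 * d⁻¹ := by gcongr; exact h2.2.1
              _ = d⁻¹ := one_mul _
          have htm : t ∈ Icc (0 : ℝ) d⁻¹ := ⟨ht0, ht1⟩
          rw [indicator_of_mem htm]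
          have h3 := hclose k (a j + t * c, t * d)
          have h4 := hC (a j + t * c, t * d)
          have h5 := abs_add_le (φ k (a j + t * c, t * d) - φ 0 (a j + t * c, t * d))
            (φ 0 (a j + t * c, t * d))
          simp only [sub_add_cancel] at h5
          linarith
      · exact Eventually.of_forall fun t => hlim _
    have h2 : Tendsto (fun k => ∫ t in Ioi (0 : ℝ), φ k (a j + t * c, t * d)) atTop (𝓝 0) := by
      refine tendsto_const_nhds.congr' ?_
      filter_upwards [eventually_ge_atTop j] with k hk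
      exact (Phi_ray (hG k) (a j) (hL j k hk) c d hd0).symm
    exact tendsto_nhds_unique h1 h2

end Sequence

/-- **Main theorem.** In every dimension `n ≥ 2` there are a continuous, compactly supported
function `f` on `ℝⁿ` that is not almost everywhere zero and an infinite set `P` of points such that
`D_p f (u) = 0` for every `p ∈ P` and every unit vector `u`. -/
theorem result (n : ℕ) (hn : 2 ≤ n) :
    ∃ f : EuclideanSpace ℝ (Fin n) → ℝ, Continuous f ∧ HasCompactSupport f ∧
      ¬ (f =ᵐ[volume] 0) ∧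
      ∃ P : Set (EuclideanSpace ℝ (Fin n)), P.Infinite ∧
        ∀ p ∈ P, ∀ u : EuclideanSpace ℝ (Fin n), ‖u‖ = 1 → directedXRay f p u = 0 := by
  obtain ⟨F, a, ha, hFc, hsupp, hne, hray⟩ := exists_planar
  have hn0 : 0 < n := by omega
  let i0 : Fin n := ⟨0, hn0⟩
  let i1 : Fin n := ⟨1, by omega⟩
  let e : EuclideanSpace ℝ (Fin n) := EuclideanSpace.single i0 (1 : ℝ)
  let e1 : EuclideanSpace ℝ (Fin n) := EuclideanSpace.single i1 (1 : ℝ)
  let pr : EuclideanSpace ℝ (Fin n) → ℝ × ℝ := fun x => (inner ℝ e x, ‖x - (inner ℝ e x) • e‖)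
  have hprc : Continuous pr := by
    have h1 : Continuous fun x : EuclideanSpace ℝ (Fin n) => inner ℝ e x := by fun_prop
    exact h1.prodMk (continuous_id.sub (h1.smul continuous_const)).norm
  have hee : inner ℝ e e = (1 : ℝ) := by
    simp [e]
  have hen : ‖e‖ = 1 := by
    simp [e]
  refine ⟨fun x => F (pr x), hFc.comp hprc, ?_, ?_, ?_⟩
  · refine HasCompactSupport.intro (isCompact_closedBall (0 : EuclideanSpace ℝ (Fin n)) 2)
      fun x hx => ?_
    by_contra h
    apply hx
    obtain ⟨h1, h2, h3⟩ := hsupp _ h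
    simp only [pr] at h1 h2 h3
    rw [mem_closedBall_zero_iff]
    calc ‖x‖ = ‖(x - (inner ℝ e x) • e) + (inner ℝ e x) • e‖ := by rw [sub_add_cancel]
      _ ≤ ‖x - (inner ℝ e x) • e‖ + ‖(inner ℝ e x) • e‖ := norm_add_le _ _
      _ ≤ 1 + 1 := by
        gcongr
        rw [norm_smul, hen, mul_one]
        exact h3
      _ = 2 := by norm_num
  · intro hae
    have h1 : (fun x => F (pr x)) = 0 :=
      (hFc.comp hprc).ae_eq_iff_eq volume continuous_zero |>.mp hae
    have h2 := congrFun h1 ((2 / 5 : ℝ) • e1)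
    simp only [Pi.zero_apply] at h2
    have h3 : inner ℝ e ((2 / 5 : ℝ) • e1) = (0 : ℝ) := by
      have : i0 ≠ i1 := by
        intro h
        have := congrArg Fin.val h
        simp [i0, i1] at this
      rw [inner_smul_right]
      simp [e, e1, EuclideanSpace.inner_single_left, this]
    have h4 : pr ((2 / 5 : ℝ) • e1) = (0, 2 / 5) := by
      simp only [pr, h3, zero_smul, sub_zero, norm_smul]
      simp [e1]
    rw [h4] at h2
    exact hne h2
  · refine ⟨Set.range fun k => a k • e, ?_, ?_⟩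
    · apply Set.infinite_range_of_injective
      intro j k hjk
      apply ha.injective
      have := congrArg (fun x => inner ℝ e x) hjk
      simp only [inner_smul_right, hee, mul_one] at this
      exact this
    · rintro _ ⟨j, rfl⟩ u hu
      unfold directedXRay
      refine Eq.trans ?_ (hray j (inner ℝ e u) ‖u - (inner ℝ e u) • e‖ (norm_nonneg _))
      refine setIntegral_congr_fun measurableSet_Ioi fun t ht => ?_
      have ht0 : (0 : ℝ) < t := ht
      simp only
      congr 1
      simp only [pr]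
      have h1 : inner ℝ e (a j • e + t • u) = a j + t * inner ℝ e u := by
        rw [inner_add_right, inner_smul_right, inner_smul_right, hee, mul_one]
      rw [h1]
      congr 1
      have h2 : a j • e + t • u - (a j + t * inner ℝ e u) • e = t • (u - (inner ℝ e u) • e) := by
        rw [add_smul, smul_sub, mul_smul]
        abel
      rw [h2, norm_smul, Real.norm_eq_abs, abs_of_pos ht0]

end Pool.Agent.Results.MP_113557_an.InfiniteSources
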